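import Pool.Agent.H.MP_007251_co.A

set_option autoImplicit false

namespace Pool.Agent.Results.MP_007251_co.Exact

open Pool.Agent.H.MP_007251_co Finset Classical

theorem mos_ge {n : ℕ} (G : SimpleGraph (Fin n)) (hG : Cograph G) (hn : ∀ v, ∃ w, G.Adj v w) :
    2 * ((n + 5) / 6) ≤ mos G := by
  obtain ⟨S, -, o, l, e⟩ := lower G hG univ (fun u _ => by simpa using hn u)
  have : S.card ≤ mos G := le_csSup ⟨n, by
    rintro k ⟨T, -, rfl⟩
    simpa using card_le_univ T⟩ ⟨S, o, rfl⟩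
  simp only [card_univ, Fintype.card_fin] at l
  omega

/-- disjoint union of induced subgraphs of the octahedron -/
def ex (n s : ℕ) : SimpleGraph (Fin n) where
  Adj u v := (u.val + s) / 6 = (v.val + s) / 6 ∧ (u.val + s) % 3 ≠ (v.val + s) % 3
  symm := ⟨fun _ _ h => ⟨h.1.symm, h.2.symm⟩⟩
  loopless := ⟨fun _ h => h.2 rfl⟩

theorem ex_adj {n s : ℕ} (u v : Fin n) : (ex n s).Adj u v ↔
    (u.val + s) / 6 = (v.val + s) / 6 ∧ (u.val + s) % 3 ≠ (v.val + s) % 3 := Iff.rfl

theorem ex_block (n s : ℕ) (S : Finset (Fin n)) (hS : OddSet (ex n s) S) (b : ℕ) :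
    (S.filter (fun v => (v.val + s) / 6 = b)).card ≤ 2 := by
  rw [oddSet_iff] at hS
  set T := S.filter (fun v => (v.val + s) / 6 = b) with hT
  have h1 : ∀ r, (T.filter (fun v => (v.val + s) % 3 = r)).card ≤ 2 := fun r => by
    rw [← card_range 2]
    refine card_le_card_of_injOn (fun v => (v.val + s) % 6 / 3) (fun v _ => ?_)
      (fun u hu v hv e => Fin.ext ?_)
    · simp only [coe_range, Set.mem_Iio]; omega
    · simp only [hT, coe_filter, mem_filter, Set.mem_ofPred_eq] at hu hv e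
      omega
  have h2 : ∀ r, (T.filter (fun v => (v.val + s) % 3 = r)).card = 0 ∨
      (T.card + (T.filter (fun v => (v.val + s) % 3 = r)).card) % 2 = 1 := fun r => by
    rcases (T.filter (fun v => (v.val + s) % 3 = r)).eq_empty_or_nonempty with h | ⟨v, hv⟩
    · left; rw [h, card_empty]
    · right
      obtain ⟨hv1, hv2⟩ := mem_filter.1 hv
      obtain ⟨hv0, hv1⟩ := mem_filter.1 hv1
      have a := card_filter_add_card_filter_not (s := T) (fun v => (v.val + s) % 3 = r)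
      obtain ⟨F, o, hF⟩ : ∃ F : Finset (Fin n), Odd F.card ∧
          ∀ w, w ∈ F ↔ (w ∈ S ∧ (ex n s).Adj v w) := ⟨_, hS v hv0, fun w => by simp⟩
      have e : T.filter (fun v => ¬ (v.val + s) % 3 = r) = F := by
        ext w
        simp only [hT, mem_filter, hF, ex_adj, hv1, hv2]
        constructor
        · rintro ⟨⟨h1, h2⟩, h3⟩; exact ⟨h1, h2.symm, fun e => h3 e.symm⟩
        · rintro ⟨h1, h2, h3⟩; exact ⟨⟨h1, h2.symm⟩, fun e => h3 e.symm⟩
      rw [e] at a
      rw [Nat.odd_iff] at o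
      omega
  have h3 : T.card = ∑ r ∈ range 3, (T.filter (fun v => (v.val + s) % 3 = r)).card :=
    card_eq_sum_card_fiberwise (fun v _ => by simp only [coe_range, Set.mem_Iio]; omega)
  simp only [sum_range_succ, sum_range_zero] at h3
  have a0 := h1 0; have a1 := h1 1; have a2 := h1 2
  have b0 := h2 0; have b1 := h2 1; have b2 := h2 2
  omega

theorem ex_mos (n s : ℕ) : mos (ex n s) ≤ 2 * ((n + s + 5) / 6) := by
  refine csSup_le' ?_
  rintro k ⟨S, hS, rfl⟩
  have h : S.card = ∑ b ∈ range ((n + s + 5) / 6),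
      (S.filter (fun v => (v.val + s) / 6 = b)).card :=
    card_eq_sum_card_fiberwise (fun v _ => by
      simp only [coe_range, Set.mem_Iio]; have := v.2; omega)
  rw [h]
  refine (sum_le_sum fun b _ => ex_block n s S hS b).trans ?_
  simp [mul_comm]

/-- `m(n) = 2 ⌈n/6⌉` for every `n ≥ 2`. -/
theorem result (n : ℕ) (hn : 2 ≤ n) :
    IsLeast {k : ℕ | ∃ G : SimpleGraph (Fin n), Cograph G ∧ (∀ v, ∃ w, G.Adj v w) ∧ mos G = k}
      (2 * ((n + 5) / 6)) := by
  refine ⟨?_, ?_⟩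
  · obtain ⟨s, hs⟩ : ∃ s, (n % 6 = 1 ∧ s = 1) ∨ (n % 6 ≠ 1 ∧ s = 0) := by
      by_cases h : n % 6 = 1
      · exact ⟨1, Or.inl ⟨h, rfl⟩⟩
      · exact ⟨0, Or.inr ⟨h, rfl⟩⟩
    have c : Cograph (ex n s) := by
      intro a b c d h1 h2 h3 h4 h5 h6
      have e4 : a.val ≠ c.val := fun e => h4 (Fin.ext e)
      have e5 : b.val ≠ d.val := fun e => h5 (Fin.ext e)
      simp only [ex_adj] at h1 h2 h3 ⊢
      omega
    have i : ∀ v, ∃ w, (ex n s).Adj v w := by
      intro v
      have := v.2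
      by_cases h : (v.val + s) % 6 ≠ 5 ∧ v.val + 1 < n
      · exact ⟨⟨v.val + 1, h.2⟩, by simp only [ex_adj]; omega⟩
      · exact ⟨⟨v.val - 1, by omega⟩, by simp only [ex_adj]; omega⟩
    refine ⟨ex n s, c, i, le_antisymm ((ex_mos n s).trans (by omega)) (mos_ge _ c i)⟩
  · rintro k ⟨G, hG, hi, rfl⟩
    exact mos_ge G hG hi

end Pool.Agent.Results.MP_007251_co.Exact
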